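import Pool.Agent.Helper89.TQ.Spec

/-!
MP_5465ec_co, Q2, part BRIDGE.
-/

set_option autoImplicit false
set_option linter.all false

namespace Pool.Agent.Helper96.TQ.BRIDGE

open Finset Pool.Agent.R6.Trade Pool.Agent.Helper89.TQ

variable {N : Type} [Fintype N] [DecidableEq N] {τ : N → Fin 3} {W : Finset N → Prop}

lemma vec_insert {S : Finset N} {b : N} (hb : b ∉ S) (k : Fin 3) :
    vec τ (insert b S) k = vec τ S k + (if τ b = k then 1 else 0) := by
  unfold vec
  rw [filter_insert]
  split_ifs with h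
  · rw [card_insert_of_notMem (by simp [hb])]
  · rfl

lemma vec_erase {S : Finset N} {a : N} (ha : a ∈ S) (k : Fin 3) :
    vec τ (S.erase a) k + (if τ a = k then 1 else 0) = vec τ S k := by
  have h := vec_insert (τ := τ) (notMem_erase a S) k
  rw [insert_erase ha] at h
  exact h.symm

lemma exists_mem {S T : Finset N} {i : Fin 3} (h : vec τ S i < vec τ T i) :
    ∃ b, b ∈ T ∧ b ∉ S ∧ τ b = i := by
  obtain ⟨b, hb, hb'⟩ := exists_mem_notMem_of_card_lt_card h
  rw [mem_filter] at hb hb'
  exact ⟨b, hb.1, fun h => hb' ⟨h, hb.2⟩, hb.2⟩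

lemma vec_le (S : Finset N) (i : Fin 3) : vec τ S i ≤ nn τ i :=
  card_le_card (filter_subset_filter _ (subset_univ S))

lemma add_case (hW : IsSimple W) {S T : Finset N} (hS : W S) {i : Fin 3}
    (h : vec τ S i < vec τ T i) :
    ∃ S', W S' ∧ ∀ k, vec τ S' k = vec τ S k + (if i = k then 1 else 0) := by
  obtain ⟨b, hb, hb', hbi⟩ := exists_mem h
  refine ⟨insert b S, hW.2.2 _ _ (subset_insert b S) hS, fun k => ?_⟩
  rw [vec_insert hb', hbi]

lemma swap_case (hτ : ∀ u v, AtLeast W u v ↔ τ u ≤ τ v) {S T : Finset N} (hS : W S)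
    {i j : Fin 3} (hij : i ≤ j) (hne : i ≠ j) (h : vec τ S i < vec τ T i)
    (h' : vec τ T j < vec τ S j) :
    ∃ S', W S' ∧ ∀ k, vec τ S' k + (if j = k then 1 else 0) =
      vec τ S k + (if i = k then 1 else 0) := by
  obtain ⟨b, hb, hb', hbi⟩ := exists_mem h
  obtain ⟨a, ha, ha', haj⟩ := exists_mem h'
  have hba : b ≠ a := by rintro rfl; exact hb' ha
  refine ⟨insert b (S.erase a), ?_, fun k => ?_⟩
  · refine (hτ b a).2 (by rw [hbi, haj]; exact hij) (S.erase a) ?_ (notMem_erase a S) ?_
    · exact fun h => hb' (mem_of_mem_erase h)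
    · rwa [insert_erase ha]
  · rw [vec_insert (fun h => hb' (mem_of_mem_erase h)), hbi, ← vec_erase ha k, haj]
    omega

lemma mono_aux (hW : IsSimple W) (hτ : ∀ u v, AtLeast W u v ↔ τ u ≤ τ v) (T : Finset N) :
    ∀ (m : ℕ) (S : Finset N), W S → GE (vec τ T) (vec τ S) →
      3 * vec τ T 0 + 2 * vec τ T 1 + vec τ T 2 =
        3 * vec τ S 0 + 2 * vec τ S 1 + vec τ S 2 + m → W T := by
  intro m
  induction m using Nat.strong_induction_on with
  | _ m ih =>
    intro S hS hGE hm
    obtain ⟨g0, g1, g2⟩ := hGE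
    have key : ∀ S', W S' → GE (vec τ T) (vec τ S') →
        3 * vec τ S 0 + 2 * vec τ S 1 + vec τ S 2 <
        3 * vec τ S' 0 + 2 * vec τ S' 1 + vec τ S' 2 → W T := by
      intro S' hS' hG hlt
      obtain ⟨q0, q1, q2⟩ := hG
      refine ih (3 * vec τ T 0 + 2 * vec τ T 1 + vec τ T 2 -
        (3 * vec τ S' 0 + 2 * vec τ S' 1 + vec τ S' 2)) ?_ S' hS' ⟨q0, q1, q2⟩ ?_
      · omega
      · omega
    by_cases h0 : vec τ S 0 < vec τ T 0
    · by_cases h1 : vec τ S 0 + vec τ S 1 = vec τ T 0 + vec τ T 1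
      · obtain ⟨S', hS', hv⟩ := swap_case hτ hS (i := 0) (j := 1) (by decide) (by decide) h0
          (by omega)
        have e0 := hv 0
        have e1 := hv 1
        have e2 := hv 2
        simp at e0 e1 e2
        exact key S' hS' ⟨by omega, by omega, by omega⟩ (by omega)
      · by_cases h2 : vec τ S 0 + vec τ S 1 + vec τ S 2 = vec τ T 0 + vec τ T 1 + vec τ T 2
        · obtain ⟨S', hS', hv⟩ := swap_case hτ hS (i := 0) (j := 2) (by decide) (by decide) h0
            (by omega)
          have e0 := hv 0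
          have e1 := hv 1
          have e2 := hv 2
          simp at e0 e1 e2
          exact key S' hS' ⟨by omega, by omega, by omega⟩ (by omega)
        · obtain ⟨S', hS', hv⟩ := add_case hW hS (i := 0) h0
          have e0 := hv 0
          have e1 := hv 1
          have e2 := hv 2
          simp at e0 e1 e2
          exact key S' hS' ⟨by omega, by omega, by omega⟩ (by omega)
    · by_cases h1 : vec τ S 1 < vec τ T 1
      · by_cases h2 : vec τ S 0 + vec τ S 1 + vec τ S 2 = vec τ T 0 + vec τ T 1 + vec τ T 2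
        · obtain ⟨S', hS', hv⟩ := swap_case hτ hS (i := 1) (j := 2) (by decide) (by decide) h1
            (by omega)
          have e0 := hv 0
          have e1 := hv 1
          have e2 := hv 2
          simp at e0 e1 e2
          exact key S' hS' ⟨by omega, by omega, by omega⟩ (by omega)
        · obtain ⟨S', hS', hv⟩ := add_case hW hS (i := 1) h1
          have e0 := hv 0
          have e1 := hv 1
          have e2 := hv 2
          simp at e0 e1 e2
          exact key S' hS' ⟨by omega, by omega, by omega⟩ (by omega)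
      · by_cases h2 : vec τ S 2 < vec τ T 2
        · obtain ⟨S', hS', hv⟩ := add_case hW hS (i := 2) h2
          have e0 := hv 0
          have e1 := hv 1
          have e2 := hv 2
          simp at e0 e1 e2
          exact key S' hS' ⟨by omega, by omega, by omega⟩ (by omega)
        · have hv : vec τ S = vec τ T := by
            funext i
            fin_cases i
            · show vec τ S 0 = vec τ T 0; omega
            · show vec τ S 1 = vec τ T 1; omega
            · show vec τ S 2 = vec τ T 2; omega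
          exact win_of_vec_eq hW.2.2 τ (fun u v h => (hτ u v).2 h.le) _ S T rfl hv hS

lemma mono (hW : IsSimple W) (hτ : ∀ u v, AtLeast W u v ↔ τ u ≤ τ v) (S T : Finset N) (hS : W S)
    (h : GE (vec τ T) (vec τ S)) : W T := by
  obtain ⟨g0, g1, g2⟩ := h
  refine mono_aux hW hτ T (3 * vec τ T 0 + 2 * vec τ T 1 + vec τ T 2 -
    (3 * vec τ S 0 + 2 * vec τ S 1 + vec τ S 2)) S hS ⟨g0, g1, g2⟩ ?_
  omega

lemma ge_refl (x : Fin 3 → ℕ) : GE x x := ⟨le_rfl, le_rfl, le_rfl⟩

lemma ge_trans {x y z : Fin 3 → ℕ} (h : GE x y) (h' : GE y z) : GE x z :=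
  ⟨h'.1.trans h.1, h'.2.1.trans h.2.1, h'.2.2.trans h.2.2⟩

lemma desc_aux : ∀ (m : ℕ) (S : Finset N), W S →
    3 * vec τ S 0 + 2 * vec τ S 1 + vec τ S 2 = m → ∃ v, MinWin W τ v ∧ GE (vec τ S) v := by
  intro m
  induction m using Nat.strong_induction_on with
  | _ m ih =>
    intro S hS hm
    by_cases hmin : ∀ S', W S' → GE (vec τ S) (vec τ S') → vec τ S' = vec τ S
    · exact ⟨vec τ S, ⟨⟨S, hS, rfl⟩, hmin⟩, ge_refl _⟩
    · push Not at hmin
      obtain ⟨S', hS', hG, hne⟩ := hmin
      have hlt : 3 * vec τ S' 0 + 2 * vec τ S' 1 + vec τ S' 2 < m := by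
        obtain ⟨g0, g1, g2⟩ := hG
        by_contra hcon
        apply hne
        funext i
        fin_cases i
        · show vec τ S' 0 = vec τ S 0; omega
        · show vec τ S' 1 = vec τ S 1; omega
        · show vec τ S' 2 = vec τ S 2; omega
      obtain ⟨v, hv, hv'⟩ := ih _ hlt S' hS' rfl
      exact ⟨v, hv, ge_trans hG hv'⟩

theorem main : S_BRIDGE := by
  intro N _ _ W τ a b hW hsurj hτ hab hmin
  have ha : MinWin W τ a := (hmin a).2 (Or.inl rfl)
  have hb : MinWin W τ b := (hmin b).2 (Or.inr rfl)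
  obtain ⟨⟨Sa, hSa, hva⟩, ha2⟩ := ha
  obtain ⟨⟨Sb, hSb, hvb⟩, hb2⟩ := hb
  have hiff : ∀ S, W S ↔ Win a b (vec τ S) := by
    intro S
    constructor
    · intro hS
      obtain ⟨v, hv, hv'⟩ := desc_aux _ S hS rfl
      rcases (hmin v).1 hv with rfl | rfl
      · exact Or.inl hv'
      · exact Or.inr hv'
    · rintro (h | h)
      · exact mono hW hτ Sa S hSa (by rw [hva]; exact h)
      · exact mono hW hτ Sb S hSb (by rw [hvb]; exact h)
  refine ⟨fun i => hva ▸ vec_le Sa i, fun i => hvb ▸ vec_le Sb i, ?_, ?_, ?_, ?_, hiff⟩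
  · intro h
    exact hab (hvb ▸ (ha2 Sb hSb (by rw [hvb]; exact h)).symm)
  · intro h
    exact hab (hva ▸ (hb2 Sa hSa (by rw [hva]; exact h)))
  · obtain ⟨u, hu⟩ := hsurj 0
    obtain ⟨v, hv⟩ := hsurj 1
    have hn : ¬ AtLeast W v u := by
      rw [hτ, hu, hv]
      decide
    unfold AtLeast at hn
    push Not at hn
    obtain ⟨S, hvS, huS, hWu, hWv⟩ := hn
    rw [hiff] at hWu hWv
    have u0 := vec_insert (τ := τ) huS 0
    have u1 := vec_insert (τ := τ) huS 1
    have u2 := vec_insert (τ := τ) huS 2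
    have v0 := vec_insert (τ := τ) hvS 0
    have v1 := vec_insert (τ := τ) hvS 1
    have v2 := vec_insert (τ := τ) hvS 2
    have vl := vec_le (τ := τ) (insert v S) 1
    simp [hu, hv] at u0 u1 u2 v0 v1 v2
    unfold Win GE at hWu hWv
    omega
  · obtain ⟨u, hu⟩ := hsurj 1
    obtain ⟨v, hv⟩ := hsurj 2
    have hn : ¬ AtLeast W v u := by
      rw [hτ, hu, hv]
      decide
    unfold AtLeast at hn
    push Not at hn
    obtain ⟨S, hvS, huS, hWu, hWv⟩ := hn
    rw [hiff] at hWu hWv
    have u0 := vec_insert (τ := τ) huS 0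
    have u1 := vec_insert (τ := τ) huS 1
    have u2 := vec_insert (τ := τ) huS 2
    have v0 := vec_insert (τ := τ) hvS 0
    have v1 := vec_insert (τ := τ) hvS 1
    have v2 := vec_insert (τ := τ) hvS 2
    have vl := vec_le (τ := τ) (insert v S) 2
    simp [hu, hv] at u0 u1 u2 v0 v1 v2
    unfold Win GE at hWu hWv
    omega

end Pool.Agent.Helper96.TQ.BRIDGE
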